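import Pool.Agent.helper71.PQZ.Spec

set_option autoImplicit false

open Filter Topology Set

namespace Pool.Agent.PQZ

noncomputable section

theorem POL_emb_inj : Function.Injective emb := by
  intro g h e
  apply ap_ext
  intro x
  exact congrFun (congrArg Prod.fst e) x

/-- the set of the pairs with the four conditions -/
def POL_set : Set ((D → D) × (D → D)) :=
  {p | (∀ x : D, p.1 (p.2 x) = x) ∧ (∀ x : D, p.2 (p.1 x) = x) ∧
    (∀ x y : ℚ, x < y → (show ℚ from p.1 x) < (show ℚ from p.1 y)) ∧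
    ∀ x : ℚ, (show ℚ from p.1 (x + 1 : ℚ)) = (show ℚ from p.1 x) + 1}

theorem POL_cont1 (x : D) : Continuous (fun p : (D → D) × (D → D) => p.1 x) :=
  (continuous_apply x).comp continuous_fst

theorem POL_cont2 (x : D) : Continuous (fun p : (D → D) × (D → D) => p.2 x) :=
  (continuous_apply x).comp continuous_snd

theorem POL_cont12 (x : D) : Continuous (fun p : (D → D) × (D → D) => p.1 (p.2 x)) := by
  rw [continuous_iff_continuousAt]
  intro p₀
  have h1 : ∀ᶠ p in 𝓝 p₀, p.2 x = p₀.2 x :=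
    (POL_cont2 x).continuousAt.eventually ((isOpen_discrete {p₀.2 x}).mem_nhds rfl)
  have h2 : ∀ᶠ p in 𝓝 p₀, p.1 (p₀.2 x) = p₀.1 (p₀.2 x) :=
    (POL_cont1 (p₀.2 x)).continuousAt.eventually
      ((isOpen_discrete {p₀.1 (p₀.2 x)}).mem_nhds rfl)
  have h3 : (fun _ : (D → D) × (D → D) => p₀.1 (p₀.2 x)) =ᶠ[𝓝 p₀]
      (fun p : (D → D) × (D → D) => p.1 (p.2 x)) := by
    filter_upwards [h1, h2] with p e1 e2
    rw [e1, e2]
  exact (continuousAt_const (y := p₀.1 (p₀.2 x))).congr h3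

theorem POL_cont21 (x : D) : Continuous (fun p : (D → D) × (D → D) => p.2 (p.1 x)) := by
  rw [continuous_iff_continuousAt]
  intro p₀
  have h1 : ∀ᶠ p in 𝓝 p₀, p.1 x = p₀.1 x :=
    (POL_cont1 x).continuousAt.eventually ((isOpen_discrete {p₀.1 x}).mem_nhds rfl)
  have h2 : ∀ᶠ p in 𝓝 p₀, p.2 (p₀.1 x) = p₀.2 (p₀.1 x) :=
    (POL_cont2 (p₀.1 x)).continuousAt.eventually
      ((isOpen_discrete {p₀.2 (p₀.1 x)}).mem_nhds rfl)
  have h3 : (fun _ : (D → D) × (D → D) => p₀.2 (p₀.1 x)) =ᶠ[𝓝 p₀]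
      (fun p : (D → D) × (D → D) => p.2 (p.1 x)) := by
    filter_upwards [h1, h2] with p e1 e2
    rw [e1, e2]
  exact (continuousAt_const (y := p₀.2 (p₀.1 x))).congr h3

theorem POL_closed_rel (R : D → D → Prop) (x y : D) :
    IsClosed {p : (D → D) × (D → D) | R (p.1 x) (p.1 y)} := by
  have h : Continuous (fun p : (D → D) × (D → D) => (p.1 x, p.1 y)) :=
    (POL_cont1 x).prodMk (POL_cont1 y)
  exact (isClosed_discrete {q : D × D | R q.1 q.2}).preimage h

theorem POL_closed : IsClosed POL_set := by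
  have e : POL_set = (⋂ x : D, {p : (D → D) × (D → D) | p.1 (p.2 x) = x}) ∩
      ((⋂ x : D, {p : (D → D) × (D → D) | p.2 (p.1 x) = x}) ∩
      ((⋂ x : ℚ, ⋂ y : ℚ, ⋂ _ : x < y, {p : (D → D) × (D → D) |
        (show ℚ from p.1 x) < (show ℚ from p.1 y)}) ∩
      (⋂ x : ℚ, {p : (D → D) × (D → D) |
        (show ℚ from p.1 (x + 1 : ℚ)) = (show ℚ from p.1 x) + 1}))) := by
    ext p
    simp only [POL_set, mem_inter_iff, mem_iInter]
    rfl
  rw [e]
  refine (isClosed_iInter fun x => isClosed_eq (POL_cont12 x) continuous_const).inter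
    ((isClosed_iInter fun x => isClosed_eq (POL_cont21 x) continuous_const).inter
    ((isClosed_iInter fun x => isClosed_iInter fun y => isClosed_iInter fun _ => ?_).inter
    (isClosed_iInter fun x => ?_)))
  · exact POL_closed_rel (fun a b => (show ℚ from a) < (show ℚ from b)) x y
  · exact POL_closed_rel (fun a b => (show ℚ from a) = (show ℚ from b) + 1) (x + 1 : ℚ) x

theorem POL_range : range emb = POL_set := by
  ext p
  constructor
  · rintro ⟨g, rfl⟩
    refine ⟨fun x => ap_ap_inv g x, fun x => ap_inv_ap g x, fun x y h => ap_strictMono g h,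
      fun x => ap_add_one g x⟩
  · rintro ⟨h1, h2, h3, h4⟩
    obtain ⟨g, hg⟩ := ap_mk (fun x => p.1 x) (fun x => p.2 x) (fun x y h => h3 x y h) h1 h4
    refine ⟨g, ?_⟩
    apply Prod.ext
    · funext x
      exact hg x
    · funext x
      have e1 : ap g (ap g⁻¹ x) = x := ap_ap_inv g x
      have e2 : p.1 (ap g⁻¹ x) = x := (hg _).symm.trans e1
      have e3 : p.2 (p.1 (ap g⁻¹ x)) = ap g⁻¹ x := h2 _
      rw [e2] at e3
      exact e3.symm

theorem POL_proof : POL_stmt := by
  have hemb : IsClosedEmbedding emb :=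
    ⟨⟨⟨rfl⟩, POL_emb_inj⟩, by rw [POL_range]; exact POL_closed⟩
  haveI : PolishSpace ((D → D) × (D → D)) := {}
  exact hemb.polishSpace

end

end Pool.Agent.PQZ
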